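import Pool.Agent.W216.LF.CMR
import Pool.Agent.W466.EM
import Pool.Agent.W346.LF.Endo
import Pool.Agent.W578.LF.QA

/-!
# No relations, modulo rational points, between points near the origin with complex multiplication

Adapted from `Pool.Agent.W216.LF.cmr` (where the sum is zero).
-/

set_option autoImplicit false
set_option linter.unusedSectionVars false

namespace Pool.Agent.V11322.ZC

open Pool.Agent.W282.LF Pool.Agent.W466.EP Pool.Agent.W216.LF WeierstrassCurve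
  WeierstrassCurve.Affine

/-- No combination of points near the origin, with coefficients in the order generated by the
complex multiplication `φ`, is rational over a field with bounded ramification. -/
theorem cmr_rat (h1 : S_ENDO) (h2 : S_QUAD) (h3 : S_ALGV) (V : ValuationSubring ℂ) (p : ℕ)
    (hp : p.Prime) (hpV : (p : ℂ) ∈ V.nonunits) (A B : ℂ) (hAV : A ∈ V) (hBV : B ∈ V)
    (φ : (crv A B).Point →+ (crv A B).Point) (F G H K : Polynomial ℂ) (hR : IsRatl φ F G H K)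
    (halg : ∀ P ∈ ({F, G, H, K} : Set (Polynomial ℂ)), ∀ i, IsAlgebraic ℚ (P.coeff i))
    (a b : ℤ) (hab : ∀ P, φ (φ P) = a • φ P + b • P) (hdisc : a ^ 2 + 4 * b < 0)
    (n : ℕ) (P : Fin n → (crv A B).Point) (J : Finset (Fin n)) (β : ℕ) (hβ : 0 < β)
    (e : Fin n → ℕ) (hJ : ∀ i ∈ J, P i ≠ 0 ∧ Fm V.valuation (P i) ∧
      V.valuation (tt (P i)) ^ 4 < V.valuation (p : ℂ) ∧
      V.valuation (tt (P i)) ^ (2 * β) = V.valuation (p : ℂ) ^ e i)
    (hJe : ∀ i ∈ J, ∀ j ∈ J, i ≠ j → ¬ e i ≡ e j [MOD β])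
    (K' : Subfield ℂ) (hAK : A ∈ K') {M' : ℕ} (hK' : ∀ z ∈ K', z ≠ 0 → ∃ h : ℕ, 0 < h ∧
      h ≤ M' ∧ ∃ i : ℤ, V.valuation z ^ h = V.valuation (p : ℂ) ^ i)
    (hJM : ∀ i ∈ J, ∀ h : ℕ, 0 < h → h ≤ M' → ¬ β ∣ h * e i)
    (l k : Fin n → ℤ) (hlk : ∀ i, i ∉ J → l i = 0 ∧ k i = 0) (hne : ∃ i, l i ≠ 0 ∨ k i ≠ 0)
    (t : ℕ) (ht : 0 < t) (hrel : Rat K' (t • ∑ i, (l i • P i + k i • φ (P i)))) : False := by
  set v := V.valuation with hv
  have hA : v A ≤ 1 := (V.valuation_le_one_iff A).2 hAV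
  have hB : v B ≤ 1 := (V.valuation_le_one_iff B).2 hBV
  have hπ1 : v (p : ℂ) < 1 := V.mem_nonunits_iff.1 hpV
  have hp0 : (p : ℂ) ≠ 0 := Nat.cast_ne_zero.2 hp.ne_zero
  have hπ0 : 0 < v (p : ℂ) := zero_lt_iff.2 ((map_ne_zero v).2 hp0)
  have h20 : (2 : ℂ) ≠ 0 := two_ne_zero
  obtain ⟨MF, hMF⟩ := coeff_bd h3 V p hp hpV hπ1 F (halg F (by simp))
  obtain ⟨MG, hMG⟩ := coeff_bd h3 V p hp hpV hπ1 G (halg G (by simp))
  obtain ⟨MH, hMH⟩ := coeff_bd h3 V p hp hpV hπ1 H (halg H (by simp))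
  obtain ⟨MK, hMK⟩ := coeff_bd h3 V p hp hpV hπ1 K (halg K (by simp))
  have hmono : ∀ m m' : ℕ, m ≤ m' → v (p : ℂ) ^ m' ≤ v (p : ℂ) ^ m := fun m m' h =>
    pow_le_pow_of_le_one zero_le hπ1.le h
  obtain ⟨M, hE⟩ := h1 ℂ V.ValueGroup v (v (p : ℂ)) hπ0 hπ1 h20 A B hA hB φ F G H K hR
    ⟨MF + MG + MH + MK, by
      intro P hP i hi
      simp only [Set.mem_insert_iff, Set.mem_singleton_iff] at hP
      rcases hP with rfl | rfl | rfl | rfl
      · exact ⟨(hmono _ _ (by omega)).trans (hMF i hi).1,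
          (mul_le_mul_right (hmono _ _ (by omega)) _).trans (hMF i hi).2⟩
      · exact ⟨(hmono _ _ (by omega)).trans (hMG i hi).1,
          (mul_le_mul_right (hmono _ _ (by omega)) _).trans (hMG i hi).2⟩
      · exact ⟨(hmono _ _ (by omega)).trans (hMH i hi).1,
          (mul_le_mul_right (hmono _ _ (by omega)) _).trans (hMH i hi).2⟩
      · exact ⟨(hmono _ _ (by omega)).trans (hMK i hi).1,
          (mul_le_mul_right (hmono _ _ (by omega)) _).trans (hMK i hi).2⟩⟩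
  set θ := F.leadingCoeff * K.leadingCoeff / (G.leadingCoeff * H.leadingCoeff) with hθd
  have hF0 : F ≠ 0 := by
    intro h
    have := hR.degF
    rw [h, Polynomial.natDegree_zero] at this
    omega
  have hθ0 : θ ≠ 0 := by
    apply div_ne_zero
    · exact mul_ne_zero (Polynomial.leadingCoeff_ne_zero.2 hF0)
        (Polynomial.leadingCoeff_ne_zero.2 hR.K0)
    · exact mul_ne_zero (Polynomial.leadingCoeff_ne_zero.2 hR.G0)
        (Polynomial.leadingCoeff_ne_zero.2 hR.H0)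
  have hθa : IsAlgebraic ℚ θ := by
    rw [hθd, div_eq_mul_inv]
    exact ((halg F (by simp) _).mul (halg K (by simp) _)).mul
      ((halg G (by simp) _).mul (halg H (by simp) _)).inv
  obtain ⟨c, -, hc⟩ := h3 V p hp hpV θ hθa hθ0
  -- deep points
  have hpow : ∀ m : ℕ, v ((p ^ m : ℕ) : ℂ) = v (p : ℂ) ^ m := by
    intro m
    rw [Nat.cast_pow, map_pow]
  have hdeep : ∀ i ∈ J, ∀ m : ℕ, Fm v (p ^ m • P i) ∧
      v (tt (p ^ m • P i)) = v (p : ℂ) ^ m * v (tt (P i)) ∧ v (tt (p ^ m • P i)) ≤ v (p : ℂ) ^ m ∧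
      p ^ m • P i ≠ 0 := by
    intro i hi m
    obtain ⟨c1, c2, c3, c4⟩ := hJ i hi
    obtain ⟨d1, d2⟩ := nsmul_val hA hB h20 hp hπ0 hπ1 c2 c1 c3 (n := p ^ m)
      (pow_ne_zero m hp.ne_zero)
    rw [hpow] at d2
    refine ⟨d1, d2, ?_, ?_⟩
    · rw [d2]
      exact mul_le_of_le_one_right' (tt_lt hA hB c2).le
    · intro h0
      rw [h0] at d2
      change v (0 : ℂ) = _ at d2
      rw [map_zero] at d2
      have hpos : 0 < v (tt (P i)) := zero_lt_iff.2 ((map_ne_zero v).2 (tt_ne hA hB c2 c1))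
      exact (mul_pos (pow_pos hπ0 m) hpos).ne d2
  -- the set of indices
  set J' := Finset.univ.filter (fun i : Fin n => l i ≠ 0 ∨ k i ≠ 0) with hJ'
  have hJJ : ∀ i ∈ J', i ∈ J := by
    intro i hi
    by_contra h
    obtain ⟨c1, c2⟩ := hlk i h
    rw [hJ', Finset.mem_filter] at hi
    rcases hi.2 with h' | h'
    · exact h' c1
    · exact h' c2
  obtain ⟨i0, hi0⟩ := hne
  have hi0' : i0 ∈ J' := by rw [hJ', Finset.mem_filter]; exact ⟨Finset.mem_univ _, hi0⟩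
  -- the quadratic equation
  have hquad : θ ^ 2 = a * θ + b := by
    by_contra hcon
    have hz : θ ^ 2 - (a * θ + b) ≠ 0 := sub_ne_zero.2 hcon
    have hza : IsAlgebraic ℚ (θ ^ 2 - (a * θ + b)) := by
      have ha : IsAlgebraic ℚ (a : ℂ) := isAlgebraic_intCast a
      have hb : IsAlgebraic ℚ (b : ℂ) := isAlgebraic_intCast b
      exact (hθa.pow 2).sub ((ha.mul hθa).add hb)
    obtain ⟨c', hc', -⟩ := h3 V p hp hpV _ hza hz
    obtain ⟨d1, d2, d3, d4⟩ := hdeep i0 (hJJ i0 hi0') (M + 5 * c + c' + 1)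
    have h5 := quad_near hA hB h20 hπ0 hπ1 φ θ M c hE hc hab d1
      (d3.trans (hmono _ _ (by omega))) d4
    have h6 : v (p : ℂ) ^ (c' + (M + 5 * c)) ≤ v (p : ℂ) ^ ((M + 5 * c + c' + 1) * 2) := by
      rw [pow_add, pow_mul]
      exact (mul_le_mul_left hc' _).trans (h5.trans (pow_le_pow_left₀ zero_le d3 2))
    have h7 : v (p : ℂ) ^ ((M + 5 * c + c' + 1) * 2) < v (p : ℂ) ^ (c' + (M + 5 * c)) :=
      pow_lt_pow_right_of_lt_one₀ hπ0 hπ1 (by omega)
    exact absurd h6 (not_le.2 h7)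
  -- values of the quadratic numbers
  have hval : ∀ i : Fin n, ∃ j : ℕ, i ∈ J' →
      v ((((t : ℤ) * l i : ℤ) : ℂ) + (((t : ℤ) * k i : ℤ) : ℂ) * θ) ^ 2 = v (p : ℂ) ^ j := by
    intro i
    by_cases hi : i ∈ J'
    · rw [hJ', Finset.mem_filter] at hi
      have ht0 : (t : ℤ) ≠ 0 := by exact_mod_cast ht.ne'
      obtain ⟨-, j, hj⟩ := h2 ℂ V.ValueGroup v p hp hπ1 θ a b hquad hdisc ((t : ℤ) * l i)
        ((t : ℤ) * k i) (by
          rcases hi.2 with h' | h'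
          · exact Or.inl (mul_ne_zero ht0 h')
          · exact Or.inr (mul_ne_zero ht0 h'))
      exact ⟨j, fun _ => hj⟩
    · exact ⟨0, fun h => absurd h hi⟩
  choose j hj using hval
  set m := M + 5 * c + (∑ i, j i) + 1 with hm
  have hjm : ∀ i, j i ≤ ∑ i, j i := fun i =>
    Finset.single_le_sum (fun _ _ => Nat.zero_le _) (Finset.mem_univ i)
  set R : Fin n → (crv A B).Point := fun i =>
    ((t : ℤ) * l i) • (p ^ m • P i) + ((t : ℤ) * k i) • φ (p ^ m • P i) with hRd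
  have hRv : ∀ i ∈ J', Fm v (R i) ∧ v (tt (R i)) =
      v ((((t : ℤ) * l i : ℤ) : ℂ) + (((t : ℤ) * k i : ℤ) : ℂ) * θ) *
        (v (p : ℂ) ^ m * v (tt (P i))) := by
    intro i hi
    obtain ⟨d1, d2, d3, d4⟩ := hdeep i (hJJ i hi) m
    have h5 := lin_val hA hB h20 hπ0 hπ1 φ θ M c hE hc d1 d4 ((t : ℤ) * l i) ((t : ℤ) * k i)
      (j i) m (hj i hi) (by omega) (by have := hjm i; omega) d3
    rw [← d2]
    exact h5
  have hRne : ∀ i ∈ J', v (tt (R i)) ≠ 0 := by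
    intro i hi
    rw [(hRv i hi).2]
    obtain ⟨c1, c2, c3, c4⟩ := hJ i (hJJ i hi)
    refine mul_ne_zero ?_ (mul_ne_zero (pow_pos hπ0 m).ne' ((map_ne_zero v).2 (tt_ne hA hB c2 c1)))
    intro h0
    have := hj i hi
    rw [h0, zero_pow two_ne_zero] at this
    exact (pow_pos hπ0 (j i)).ne this
  have hRp : ∀ i ∈ J', v (tt (R i)) ^ (2 * β) =
      v (p : ℂ) ^ (β * j i + e i) * v (p : ℂ) ^ (m * (2 * β)) := by
    intro i hi
    obtain ⟨c1, c2, c3, c4⟩ := hJ i (hJJ i hi)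
    rw [(hRv i hi).2, mul_pow, mul_pow, c4, pow_mul, hj i hi, ← pow_mul, ← pow_mul, pow_add,
      mul_comm (j i) β]
    generalize v (p : ℂ) ^ (β * j i) = z1
    generalize v (p : ℂ) ^ e i = z2
    generalize v (p : ℂ) ^ (m * (2 * β)) = z3
    ac_rfl
  have hRd2 : ∀ i ∈ J', ∀ i' ∈ J', i ≠ i' → v (tt (R i)) ≠ v (tt (R i')) := by
    intro i hi i' hi' hii h
    have h5 := hRp i hi
    rw [h, hRp i' hi'] at h5
    have h6 : v (p : ℂ) ^ (m * (2 * β)) ≠ 0 := (pow_pos hπ0 _).ne'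
    have h7 := mul_right_cancel₀ h6 h5
    have h8 : β * j i' + e i' = β * j i + e i := by
      rcases lt_trichotomy (β * j i' + e i') (β * j i + e i) with h8 | h8 | h8
      · exact absurd h7 (pow_lt_pow_right_of_lt_one₀ hπ0 hπ1 h8).ne'
      · exact h8
      · exact absurd h7 (pow_lt_pow_right_of_lt_one₀ hπ0 hπ1 h8).ne
    apply hJe i (hJJ i hi) i' (hJJ i' hi') hii
    have h9 : β * j i' + e i' ≡ β * j i + e i [MOD β] := by rw [h8]
    have h10 : e i' ≡ e i [MOD β] := by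
      have e1 : β * j i' + e i' ≡ e i' [MOD β] := by
        unfold Nat.ModEq; rw [Nat.mul_add_mod]
      have e2 : β * j i + e i ≡ e i [MOD β] := by
        unfold Nat.ModEq; rw [Nat.mul_add_mod]
      exact (e1.symm.trans h9).trans e2
    exact h10.symm
  obtain ⟨-, i1, hi1, h5, -⟩ := sum_val hA hB h20 J' R (fun i hi => (hRv i hi).1) hRd2 ⟨i0, hi0'⟩
  have hsum : ∑ i ∈ J', R i = p ^ m • (t • ∑ i, (l i • P i + k i • φ (P i))) := by
    have h6 : ∑ i ∈ J', R i = ∑ i, R i := by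
      apply Finset.sum_subset (Finset.subset_univ _)
      intro i _ hi
      have h7 : l i = 0 ∧ k i = 0 := by
        by_contra h8
        apply hi
        rw [hJ', Finset.mem_filter]
        refine ⟨Finset.mem_univ _, ?_⟩
        by_contra h9
        push Not at h9
        exact h8 h9
      rw [hRd]
      change ((t : ℤ) * l i) • (p ^ m • P i) + ((t : ℤ) * k i) • φ (p ^ m • P i) = 0
      rw [h7.1, h7.2, mul_zero, zero_zsmul, zero_zsmul, add_zero]
    have h8 : ∀ i, R i = p ^ m • (t • (l i • P i + k i • φ (P i))) := by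
      intro i
      change ((t : ℤ) * l i) • (p ^ m • P i) + ((t : ℤ) * k i) • φ (p ^ m • P i) = _
      rw [map_nsmul]
      exact smul_eq t (p ^ m) (l i) (k i) (P i) (φ (P i))
    rw [h6, Finset.sum_congr rfl fun i _ => h8 i, ← Finset.smul_sum, ← Finset.smul_sum]
  -- the sum is rational
  have hratS : Rat K' (∑ i ∈ J', R i) := by
    rw [hsum]
    refine Rat.closure hAK (s := {t • ∑ i, (l i • P i + k i • φ (P i))}) ?_ _ ?_
    · intro Q hQ
      rw [Set.mem_singleton_iff.1 hQ]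
      exact hrel
    · exact nsmul_mem (AddSubgroup.subset_closure (Set.mem_singleton _)) _
  have htS : tt (∑ i ∈ J', R i) ∈ K' := by
    generalize (∑ i ∈ J', R i) = Q at hratS
    rcases Q with _ | ⟨x, y, hn⟩
    · exact K'.zero_mem
    · exact K'.div_mem hratS.1 hratS.2
  have htS0 : tt (∑ i ∈ J', R i) ≠ 0 := by
    intro h0
    rw [h0, map_zero] at h5
    exact hRne i1 hi1 h5.symm
  obtain ⟨h, hh0, hhM, i2, hi2⟩ := hK' _ htS htS0
  apply hJM i1 (hJJ i1 hi1) h hh0 hhM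
  have h6 : v (tt (∑ i ∈ J', R i)) ^ (2 * β) =
      v (p : ℂ) ^ (β * j i1 + e i1 + m * (2 * β)) := by
    rw [h5, hRp i1 hi1, ← pow_add]
  have h7 : v (p : ℂ) ^ ((h * (β * j i1 + e i1 + m * (2 * β)) : ℕ) : ℤ) =
      v (p : ℂ) ^ (i2 * ((2 * β : ℕ) : ℤ)) := by
    rw [zpow_natCast, mul_comm h, pow_mul, ← h6, zpow_mul, ← hi2, zpow_natCast, ← pow_mul,
      ← pow_mul, mul_comm]
  have h8 : ((h * (β * j i1 + e i1 + m * (2 * β)) : ℕ) : ℤ) = i2 * ((2 * β : ℕ) : ℤ) :=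
    zpow_right_injective₀ hπ0 hπ1.ne h7
  have h9 : (β : ℤ) ∣ ((h * e i1 : ℕ) : ℤ) := by
    refine ⟨2 * i2 - h * j i1 - 2 * h * m, ?_⟩
    push_cast at h8 ⊢
    linear_combination h8
  exact_mod_cast h9

end Pool.Agent.V11322.ZC
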