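import Pool.Agent.V11322.ZC.Cmr
import Pool.Agent.W282.LF.Top

/-!
The bound for the number of relations between the points of an elliptic curve at one place, with or
without complex multiplication.
-/

set_option autoImplicit false

namespace Pool.Agent.V11322.ZC

open Pool.Agent.W282.LF Pool.Agent.W466.EP Pool.Agent.W466.ZC WeierstrassCurve
  WeierstrassCurve.Affine

/-- Complex multiplication of the elliptic curve `y² = x³ + A x + B`: an endomorphism `φ`, given by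
rational functions with algebraic coefficients (`φ (x, y) = (F x / G x, y · (H x / K x))` for all but
finitely many `x`), with `φ² = a φ + b`, `a² + 4 b < 0`. -/
structure CM (A B : ℂ) where
  φ : (crv A B).Point →+ (crv A B).Point
  a : ℤ
  b : ℤ
  sq : ∀ P, φ (φ P) = a • φ P + b • P
  neg : a ^ 2 + 4 * b < 0
  F : Polynomial ℂ
  G : Polynomial ℂ
  H : Polynomial ℂ
  K : Polynomial ℂ
  ratl : IsRatl φ F G H K
  alg : ∀ Q ∈ ({F, G, H, K} : Set (Polynomial ℂ)), ∀ i, IsAlgebraic ℚ (Q.coeff i)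

/-- At every place where the coordinates of the points of `J` are large, with spread out exponents
`f i`, there are at least `c` other points. -/
def Bd (K' : Subfield ℂ) (M' : ℕ) {A B : ℂ} {n : ℕ} (P : Fin n → (crv A B).Point) (c : ℕ) :
    Prop :=
  ∀ (V : ValuationSubring ℂ) (p R : ℕ) (ρ : V.ValueGroup) (J : Finset (Fin n)) (f : Fin n → ℕ),
    p.Prime → (p : ℂ) ∈ V.nonunits → V.valuation (p : ℂ) = ρ ^ R → 0 < R → 0 < ρ → A ∈ V →
    B ∈ V → (∀ i ∈ J, V.valuation (xx (P i)) * ρ ^ f i = 1) → (∀ i ∈ J, R < 2 * f i) →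
    (∀ i ∈ J, ∀ j ∈ J, i ≠ j → ¬ f i ≡ f j [MOD R]) →
    (∀ z ∈ K', z ≠ 0 → ∃ h : ℕ, 0 < h ∧ h ≤ M' ∧ ∃ i : ℤ,
      V.valuation z ^ h = V.valuation (p : ℂ) ^ i) →
    (∀ i ∈ J, ∀ h : ℕ, 0 < h → h ≤ M' → ¬ R ∣ h * f i) → c ≤ Jᶜ.card

theorem bdZ {K' : Subfield ℂ} {M' : ℕ} {A B : ℂ} {n : ℕ} {P : Fin n → (crv A B).Point}
    (M : Submodule ℤ (Fin n → ℤ))
    (hM : ∀ r ∈ M, ∃ t : ℕ, 0 < t ∧ Rat K' (t • ∑ i, r i • P i)) :
    Bd K' M' P (Module.finrank ℤ M) := by
  classical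
  intro V p R ρ J f hpp hp hR hR0 hρ0 hA hB hf hfR hdis hK hfM
  by_contra hcon
  push Not at hcon
  obtain ⟨r, hr, hr0, hrF⟩ := exists_rel M Jᶜ hcon
  obtain ⟨t, ht, hrat⟩ := hM r hr
  have hp1 : V.valuation (p : ℂ) < 1 := by rwa [ValuationSubring.mem_nonunits_iff] at hp
  refine ell_place (v := V.valuation) two_ne_zero
    ((ValuationSubring.valuation_le_one_iff V _).2 hA)
    ((ValuationSubring.valuation_le_one_iff V _).2 hB) hpp hp1 hR hR0 hρ0 P J f hf hfR ?_ K' hK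
    ?_ r hr0 ?_ ht hrat
  · intro i hi j hj hij h
    exact hdis i hi j hj hij (Nat.ModEq.of_mul_left 2 h)
  · intro i hi h h0 hM' hdvd
    exact hfM i hi h h0 hM' ((Dvd.intro_left 2 rfl).trans hdvd)
  · intro i hi
    exact hrF i (Finset.mem_compl.2 hi)

theorem bdCM {K' : Subfield ℂ} {M' : ℕ} {A B : ℂ} (hAK : A ∈ K') {n : ℕ}
    {P : Fin n → (crv A B).Point} (cm : CM A B) (M : Submodule ℤ (Fin n → ℤ × ℤ))
    (hM : ∀ r ∈ M, ∃ t : ℕ, 0 < t ∧
      Rat K' (t • ∑ i, ((r i).1 • P i + (r i).2 • cm.φ (P i)))) :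
    Bd K' M' P ((Module.finrank ℤ M + 1) / 2) := by
  classical
  intro V p R ρ J f hpp hp hR hR0 hρ0 hAV hBV hf hfR hdis hK hfM
  by_contra hcon
  push Not at hcon
  obtain ⟨r, hr, hr0, hrF⟩ := exists_rel2 M Jᶜ (by omega)
  obtain ⟨t, ht, hrat⟩ := hM r hr
  set v := V.valuation with hv
  have hA : v A ≤ 1 := (ValuationSubring.valuation_le_one_iff V _).2 hAV
  have hB : v B ≤ 1 := (ValuationSubring.valuation_le_one_iff V _).2 hBV
  have hp1 : v (p : ℂ) < 1 := by rwa [ValuationSubring.mem_nonunits_iff] at hp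
  have hρ1 : ρ < 1 := by
    by_contra hcon
    push Not at hcon
    have h1 := one_le_pow₀ hcon (n := R)
    rw [← hR] at h1
    exact absurd hp1 (not_lt.2 h1)
  have hpt : ∀ i ∈ J, P i ≠ 0 ∧ Fm v (P i) ∧ v (tt (P i)) ^ 2 = ρ ^ f i := by
    intro i hi
    have h1 := hf i hi
    have h3 : 0 < f i := by
      have := hfR i hi
      omega
    have h4 : ρ ^ f i < 1 := pow_lt_one₀ zero_le hρ1 h3.ne'
    have h5 : P i ≠ 0 := by
      intro h0
      rw [h0] at h1
      change v (0 : ℂ) * _ = 1 at h1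
      rw [map_zero, zero_mul] at h1
      exact zero_ne_one h1
    obtain ⟨h6, h7⟩ := near_of hA hB (P i) h5 h4 (by rw [mul_comm]; exact h1)
    exact ⟨h5, h6, h7⟩
  refine cmr_rat Pool.Agent.W346.LF.endo Pool.Agent.W578.LF.quad Pool.Agent.W578.LF.algv V p hpp
    hp A B hAV hBV cm.φ cm.F cm.G cm.H cm.K cm.ratl cm.alg cm.a cm.b cm.sq cm.neg n P J R hR0 f
    ?_ hdis K' hAK hK hfM (fun i => (r i).1) (fun i => (r i).2) ?_ ?_ t ht hrat
  · intro i hi
    obtain ⟨h1, h2, h3⟩ := hpt i hi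
    refine ⟨h1, h2, ?_, ?_⟩
    · have h5 : v (tt (P i)) ^ 4 = (v (tt (P i)) ^ 2) ^ 2 := by rw [← pow_mul]
      change v (tt (P i)) ^ 4 < v (p : ℂ)
      rw [h5, h3, ← pow_mul, hR]
      refine pow_lt_pow_right_of_lt_one₀ hρ0 hρ1 ?_
      have := hfR i hi
      omega
    · change v (tt (P i)) ^ (2 * R) = v (p : ℂ) ^ f i
      rw [pow_mul, h3, hR, ← pow_mul, ← pow_mul, mul_comm]
  · intro i hi
    have h1 := hrF i (Finset.mem_compl.2 hi)
    rw [h1]
    exact ⟨rfl, rfl⟩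
  · by_contra hcon2
    push Not at hcon2
    apply hr0
    funext i
    exact Prod.ext (hcon2 i).1 (hcon2 i).2

/-- arithmetic of the exponents -/
theorem exps' {n b W M : ℕ} (hb : b.Prime) (hM : M < b) (hW : 2 * (M + 1) ≤ W)
    (e δ : Fin n → ℕ) (hδ : ∀ i, δ i ≤ 1) (he : ∀ i, b ≤ e i ∧ ¬ b ∣ e i)
    (hee : ∀ i j, i ≠ j → ¬ e i ≡ e j [MOD b]) :
    (∀ i, 1 ≤ W * e i) ∧ (∀ i, b * W < 2 * (W * e i - δ i)) ∧
    (∀ i j, i ≠ j → ¬ W * e i - δ i ≡ W * e j - δ j [MOD b * W]) ∧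
    ∀ i h, 0 < h → h ≤ M → ¬ b * W ∣ h * (W * e i - δ i) := by
  have hb2 := hb.two_le
  have hW0 : 0 < W := by omega
  obtain ⟨h3, h0, -, -⟩ := exps hb hM hW e δ hδ he (fun i j hij h =>
    hee i j hij (Nat.ModEq.of_mul_left 2 h))
  have hcast : ∀ i, ((W * e i - δ i : ℕ) : ℤ) = W * e i - δ i := by
    intro i
    rw [Nat.cast_sub ((hδ i).trans (h3 i))]
    push_cast
    rfl
  refine ⟨h3, h0, ?_, ?_⟩
  · intro i j hij h
    rw [Nat.modEq_iff_dvd, hcast, hcast] at h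
    have h4 : (W : ℤ) ∣ (W * e j - δ j) - (W * e i - δ i) := by
      refine dvd_trans ⟨b, ?_⟩ h
      push_cast
      ring
    have h5 : (W : ℤ) ∣ (δ i : ℤ) - δ j := by
      have h6 : (δ i : ℤ) - δ j = ((W * e j - δ j) - (W * e i - δ i)) - W * (e j - e i) := by ring
      rw [h6]
      exact dvd_sub h4 (dvd_mul_right _ _)
    have h6 : (δ i : ℤ) - δ j = 0 := by
      refine Int.eq_zero_of_abs_lt_dvd h5 ?_
      have h7 := hδ i
      have h8 := hδ j
      rw [abs_lt]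
      constructor <;> omega
    have h7 : ((b * W : ℕ) : ℤ) ∣ W * (e j - e i) := by
      have h8 : (W : ℤ) * (e j - e i) = ((W * e j - δ j) - (W * e i - δ i)) - (δ i - δ j) := by
        ring
      rw [h8, h6, sub_zero]
      exact h
    have h8 : (b : ℤ) ∣ (e j : ℤ) - e i := by
      have h9 : (W : ℤ) * b ∣ W * (e j - e i) := by
        convert h7 using 1
        push_cast
        ring
      exact (mul_dvd_mul_iff_left (by exact_mod_cast hW0.ne')).1 h9
    exact hee i j hij (Nat.modEq_iff_dvd.2 h8)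
  · intro i h hh0 hhM hdvd
    rcases Nat.le_one_iff_eq_zero_or_eq_one.1 (hδ i) with h4 | h4
    · rw [h4, Nat.sub_zero] at hdvd
      have h5 : W * b ∣ W * (h * e i) := by
        convert hdvd using 1 <;> ring
      have h6 : b ∣ h * e i := Nat.dvd_of_mul_dvd_mul_left hW0 h5
      rcases (Nat.Prime.dvd_mul hb).1 h6 with h8 | h8
      · exact absurd (Nat.le_of_dvd hh0 h8) (by omega)
      · exact (he i).2 h8
    · have h5 : (W : ℤ) ∣ (h * (W * e i - δ i) : ℕ) := by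
        rw [Int.natCast_dvd_natCast]
        exact (Dvd.intro_left b (by ring)).trans hdvd
      rw [Nat.cast_mul, hcast, h4] at h5
      have h6 : (W : ℤ) ∣ (h : ℤ) := by
        have h7 : (h : ℤ) = W * (h * e i) - h * (W * e i - (1 : ℕ)) := by
          push_cast
          ring
        rw [h7]
        exact dvd_sub (dvd_mul_right _ _) h5
      have h7 := Nat.le_of_dvd hh0 (Int.natCast_dvd_natCast.1 h6)
      omega

end Pool.Agent.V11322.ZC
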